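import Pool.Agent.Helper13.PLF.Defs
import Pool.Agent.Helper77.PD.AllQ

/-!
# Project PL (MP_e66f84_ag), block RAREF: the theorem for the line, in the absolute form
-/

set_option autoImplicit false

namespace Pool.Agent.PRL

open Filter Topology NumberField IsDedekindDomain Pool.Agent.SC Pool.Agent.Helper91.Sect
open Pool.Agent.LN (GoodCurve HasSec Act)
open Pool.Agent.M (Moves)
open Pool.Agent.ML (HasMu)
open Pool.Agent.PDL (IsRatBr IsBr numBr Third)

/-- no rational branch point: every set of twists with a section is rare -/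
theorem rare_none77 {k : Type} [Field k] [NumberField k] {ℓ : ℕ} {f : Polynomial k}
    {P : k → Prop} (hP : ∀ c, P c →
      HasSec ℓ (algebraMap (Polynomial k) (FractionRing (Polynomial k)) f) c) (hℓ : ℓ.Prime)
    (hmu : HasMu k ℓ)
    (hG : GoodCurve k ℓ (algebraMap (Polynomial k) (FractionRing (Polynomial k)) f))
    (hrt : ¬ ML.RatTot k ℓ (algebraMap (Polynomial k) (FractionRing (Polynomial k)) f)) :
    PD.Rare ℓ P := by
  obtain ⟨η, C, hη, hC, hbd⟩ := ML.finA k (FractionRing (Polynomial k)) ℓ ℓ _ hℓ.pos hℓ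
    (dvd_refl ℓ) hmu hG hrt
  have hfin := LN.twists_finite (k := k) ℓ hℓ.two_le
  have hsub : ∀ X : ℕ, LN.clsP (k := k) ℓ P X ⊆ LN.clsP ℓ (fun c : k =>
      HasSec ℓ (algebraMap (Polynomial k) (FractionRing (Polynomial k)) f) c) X := by
    rintro X D ⟨c, h6, h7, h8⟩
    exact ⟨c, h6, h7, hP c h8⟩
  have hsub' : ∀ X : ℕ, LN.clsP ℓ (fun c : k =>
      HasSec ℓ (algebraMap (Polynomial k) (FractionRing (Polynomial k)) f) c) X ⊆
      LN.clsP (k := k) ℓ (fun _ => True) X := by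
    rintro X D ⟨c, h6, h7, -⟩
    exact ⟨c, h6, h7, trivial⟩
  obtain ⟨B, hB⟩ := Pool.Agent.HG.exists_B5 k
  obtain ⟨C₁, hC₁, hup⟩ := LN.cls_upper LN.up k ℓ hℓ.two_le (fun _ => True) ∅ ∅ Set.finite_empty
    0 0 B hB (fun _ _ _ v hv => absurd hv (Set.notMem_empty v)) (fun x _ => by
      rw [zero_mul, sub_zero]
      exact Finset.sum_nonneg fun v _ => by positivity)
  have hlim : Tendsto (fun X : ℕ => Real.log (X : ℝ) ^ η) atTop atTop :=
    (tendsto_rpow_atTop hη).comp (Real.tendsto_log_atTop.comp tendsto_natCast_atTop_atTop)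
  intro ε hε
  filter_upwards [hlim.eventually_ge_atTop (C * C₁ / ε), eventually_ge_atTop 3] with X hX hX3 T hT
    hTc
  have hl0 : 0 < Real.log X := Real.log_pos (by exact_mod_cast (by omega : 1 < X))
  have hlη : 0 < Real.log X ^ η := Real.rpow_pos_of_pos hl0 η
  have h1 : (T.card : ℝ) ≤ Nat.card (LN.clsP (k := k) ℓ P X) := by
    exact_mod_cast LN.card_cls_ge hℓ.pos P X
      ((hfin X).subset ((hsub X).trans (hsub' X))) T hT hTc
  have h2 : (Nat.card (LN.clsP (k := k) ℓ P X) : ℝ) ≤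
      C * Nat.card (LN.clsP (k := k) ℓ (fun _ => True) X) / Real.log X ^ η := by
    refine le_trans ?_ (hbd X hX3)
    exact_mod_cast Nat.card_mono ((hfin X).subset (hsub' X)) (hsub X)
  have h3 := hup X hX3
  rw [sub_zero, mul_one] at h3
  obtain ⟨L, hL⟩ : ∃ L : ℝ, L = Real.log X ^ (((ℓ - 1 : ℕ) : ℝ) - 1) := ⟨_, rfl⟩
  rw [← hL] at h3 ⊢
  have hL0 : 0 ≤ L := by rw [hL]; exact Real.rpow_nonneg hl0.le _
  have h4 : C * C₁ ≤ ε * Real.log X ^ η := by
    rw [div_le_iff₀ hε] at hX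
    linarith
  refine h1.trans (h2.trans ?_)
  rw [div_le_iff₀ hlη]
  calc C * (Nat.card (LN.clsP (k := k) ℓ (fun _ => True) X) : ℝ) ≤ C * (C₁ * X * L) :=
        mul_le_mul_of_nonneg_left h3 hC.le
    _ = (C * C₁) * (X * L) := by ring
    _ ≤ (ε * Real.log X ^ η) * (X * L) :=
        mul_le_mul_of_nonneg_right h4 (mul_nonneg (Nat.cast_nonneg _) hL0)
    _ = ε * (X * L) * Real.log X ^ η := by ring

/-- **BLOCK RAREF.** -/
theorem rareF (hOne : StmtOneF) (hTR : StmtTRT) : StmtRareF := by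
  intro k _ _ ℓ f hℓ hℓ2 hmu h3 h4 hT m
  have hG := PDL.gCLn k ℓ f hℓ h3
  by_cases hR : (∃ α : k, ¬ ℓ ∣ f.rootMultiplicity α) ∨ ¬ ℓ ∣ f.natDegree
  · obtain ⟨E, U, i1, i2, i3, i4, i5, i6, i7, i8, r, hH, hTr⟩ := hTR k ℓ f hℓ hG
    have := hH.geo.algE
    have := hH.geo.clE
    have : IsAlgClosure k E := ⟨inferInstance, inferInstance⟩
    let φ : AlgebraicClosure k ≃ₐ[k] E := IsAlgClosure.equiv k (AlgebraicClosure k) E
    rw [PDL.numBr_equiv φ ℓ f] at h3 h4
    have hu : ∃ u : FractionRing (Polynomial k), IsRatBr ℓ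
        (algebraMap (Polynomial k) (FractionRing (Polynomial k)) Polynomial.X) f u := by
      rcases hR with ⟨α, hα⟩ | hd
      · exact ⟨_, Or.inr ⟨α, hα, rfl⟩⟩
      · exact ⟨_, Or.inl ⟨rfl, hd⟩⟩
    refine PDL.rare_mono (hOne k (FractionRing (Polynomial k)) E U ℓ _ f r hℓ hℓ2 hmu hH hu h3 h4
      (PDL.third_equiv φ hT) m) fun c hc hO => ?_
    obtain ⟨K, j1, j2, x, y, hx, hy, s, hs1, hs2⟩ := hO
    obtain ⟨Φ, hΦ, hQm⟩ := hTr c hc K x y hx hy s
    obtain ⟨-, hQ⟩ := hQm m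
    refine ⟨Φ, hΦ, ?_⟩
    rintro ⟨u, hu, Q, hp, hm⟩
    rcases hu with ⟨rfl, hd⟩ | ⟨α, hα, rfl⟩
    · exact hs1 hd ((hQ Q hm).1 hp)
    · exact hs2 α hα ((hQ Q hm).2 α hp)
  · refine rare_none77 (fun c hO => ?_) hℓ hmu hG fun h6 => ?_
    · obtain ⟨K, j1, j2, x, y, hx, hy, s, -⟩ := hO
      exact PDL.hasSec_of hx hy s
    · obtain ⟨E, U, i1, i2, i3, i4, i5, i6, i7, i8, r, hH, -⟩ := hTR k ℓ f hℓ hG
      have hf0 : f ≠ 0 := by
        rintro rfl
        unfold numBr IsBr at h3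
        simp at h3
      have hx : Polynomial.aeval (algebraMap (Polynomial k) (FractionRing (Polynomial k))
          Polynomial.X) f = algebraMap (Polynomial k) (FractionRing (Polynomial k)) f := by
        rw [Polynomial.aeval_algebraMap_apply, Polynomial.aeval_X_left_apply]
      rw [← hx] at h6
      exact hR (PD.rT k (FractionRing (Polynomial k)) ℓ _ f hℓ hH.gen hH.tr hf0 h6)

end Pool.Agent.PRL
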